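import Mathlib
import Pool.Agent.Helper34.KreinMore

/-!
# Measurable elements of `R_A`: the continuous part and the almost everywhere vanishing part

A bounded functional is a coefficient `⟨v, π(x) u⟩` of a unitary representation of the discrete
group of real numbers (starting library `Pool.Agent.Helper34`). The subspace of norm continuous
vectors and the subspace of vectors with almost everywhere vanishing coefficients are orthogonal and
invariant, and the rest of `u` does not contribute on `(-A, A)` when `f` is measurable there.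
Projecting both `u` and `v` on the two subspaces gives the two parts and the additivity of the norm.
-/

set_option autoImplicit false

open MeasureTheory InnerProductSpace

namespace Pool.Agent.Results.MP_410e25_an.ContinuousPart

/-- The symmetric open interval `(-A, A)`, for `A` in `(0, ∞]`. -/
def band (A : ENNReal) : Set ℝ := {x : ℝ | ENNReal.ofReal |x| < A}

/-- Value at `t` of the almost periodic polynomial `∑ c_x e^{i x t}` (finite sum). -/
noncomputable def apEval (c : ℝ →₀ ℂ) (t : ℝ) : ℂ :=
  ∑ x ∈ c.support, c x * Complex.exp (Complex.I * (x : ℂ) * (t : ℂ))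

/-- The functional `Φ_f`, sending `∑ c_x e_x` to `∑ c_x f(x)`. -/
noncomputable def functional (f : ℝ → ℂ) (c : ℝ →₀ ℂ) : ℂ :=
  ∑ x ∈ c.support, c x * f x

/-- `C` bounds the functional `Φ_f` on almost periodic polynomials with exponents in `(-A, A)`. -/
def IsBound (A : ENNReal) (f : ℝ → ℂ) (C : ℝ) : Prop :=
  0 ≤ C ∧ ∀ c : ℝ →₀ ℂ, (∀ x ∈ c.support, x ∈ band A) →
    ∀ M : ℝ, (∀ t : ℝ, ‖apEval c t‖ ≤ M) → ‖functional f c‖ ≤ C * M

/-- `f` restricted to `(-A, A)` belongs to `R_A`. -/
def MemR (A : ENNReal) (f : ℝ → ℂ) : Prop := ∃ C : ℝ, IsBound A f C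

/-- The norm of `f` in `R_A`: the operator norm of `Φ_f`, the least bound. -/
noncomputable def normR (A : ENNReal) (f : ℝ → ℂ) : ℝ := sInf {C : ℝ | IsBound A f C}

/-- Sanity: `(-A, A)` is the usual interval for finite `A` and the line for `A = ∞`. -/
lemma band_ofReal (A : ℝ) : band (ENNReal.ofReal A) = Set.Ioo (-A) A := by
  ext x
  simp only [band, Set.mem_ofPred_eq, Set.mem_Ioo]
  rw [ENNReal.ofReal_lt_ofReal_iff', abs_lt]
  constructor
  · rintro ⟨h, -⟩
    exact h
  · intro h
    exact ⟨h, by linarith [h.1, h.2]⟩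

lemma band_top : band ⊤ = Set.univ := by
  ext x
  simp [band]

lemma isOpen_band (A : ENNReal) : IsOpen (band A) := by
  have h : Continuous fun x : ℝ => ENNReal.ofReal |x| :=
    ENNReal.continuous_ofReal.comp continuous_abs
  exact isOpen_lt h continuous_const

lemma bddBelow_bounds (A : ENNReal) (f : ℝ → ℂ) : BddBelow {C : ℝ | IsBound A f C} :=
  ⟨0, fun _ hC => hC.1⟩

/-- The least bound is a bound: the norm is attained. -/
lemma isBound_normR {A : ENNReal} {f : ℝ → ℂ} (hf : MemR A f) : IsBound A f (normR A f) := by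
  have hne : {C : ℝ | IsBound A f C}.Nonempty := hf
  refine ⟨le_csInf hne fun _ hC => hC.1, fun c hc M hM => ?_⟩
  have hM0 : 0 ≤ M := (norm_nonneg _).trans (hM 0)
  rcases hM0.eq_or_lt with hM0 | hM0
  · obtain ⟨C, hC⟩ := hf
    have := hC.2 c hc M hM
    rw [← hM0, mul_zero] at this ⊢
    exact this
  · rw [← div_le_iff₀ hM0]
    refine le_csInf hne fun C hC => ?_
    rw [div_le_iff₀ hM0]
    exact hC.2 c hc M hM

open Pool.Agent.Helper34.Krein in
/-- Every measurable `f` in `R_A` is `f = f_c + f_m` with `f_c` in `R_A` continuous, `f_m` in `R_A`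
measurable and almost everywhere zero; moreover the norm is additive, and the decomposition is
unique among all decompositions in a continuous function and an almost everywhere zero one. -/
theorem result (A : ENNReal) (_ : 0 < A) (f : ℝ → ℂ) (hf : MemR A f)
    (hfm : AEMeasurable f (volume.restrict (band A))) :
    ∃ fc fm : ℝ → ℂ, (∀ x ∈ band A, f x = fc x + fm x) ∧
      (MemR A fc ∧ ContinuousOn fc (band A)) ∧
      (MemR A fm ∧ AEMeasurable fm (volume.restrict (band A)) ∧
        ∀ᵐ x ∂(volume.restrict (band A)), fm x = 0) ∧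
      normR A f = normR A fc + normR A fm ∧
      ∀ gc gm : ℝ → ℂ, (∀ x ∈ band A, f x = gc x + gm x) → ContinuousOn gc (band A) →
        (∀ᵐ x ∂(volume.restrict (band A)), gm x = 0) →
          ∀ x ∈ band A, gc x = fc x ∧ gm x = fm x := by
  have hC := isBound_normR hf
  obtain ⟨H, i1, i2, i3, π, u, v, hπ, hb, hu, hv, hrep⟩ := exists_rep (band A) f (normR A f) (by
      intro h hh M hM
      rw [Phi_apply]
      refine hC.2 h ?_ M ?_
      · intro x hx
        exact (Finsupp.mem_supported ℂ h).1 hh hx
      · intro t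
        have := hM t
        rw [ap_apply] at this
        exact this)
  have hF : AEStronglyMeasurable (fun l : ℝ => inner ℂ v (π l u)) (volume.restrict (band A)) := by
    refine hfm.aestronglyMeasurable.congr ?_
    filter_upwards [self_mem_ae_restrict (isOpen_band A).measurableSet] with x hx
    exact hrep x hx
  obtain ⟨uc, u0, u2, hsum, huc, hu0, hpyth, hz⟩ := hπ.decomposition u v (isOpen_band A) hF
  have hc1 := (isClosed_Hc π).completeSpace_coe
  have hc0 := (isClosed_H0 π).completeSpace_coe
  set vc := (Hc π).starProjection v with hvcdef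
  have hvc : vc ∈ Hc π := Submodule.starProjection_apply_mem _ _
  have hvc' : v - vc ∈ (Hc π)ᗮ := Submodule.sub_starProjection_mem_orthogonal v
  set v0 := (H0 π).starProjection v with hv0def
  have hv0 : v0 ∈ H0 π := Submodule.starProjection_apply_mem _ _
  have hv0' : v - v0 ∈ (H0 π)ᗮ := Submodule.sub_starProjection_mem_orthogonal v
  -- coefficients against the projections
  have ec : ∀ x : ℝ, (inner ℂ v (π x uc) : ℂ) = inner ℂ vc (π x uc) := by
    intro x
    have h1 := (Submodule.mem_orthogonal' _ _).1 hvc' _ (hπ.Hc_invariant huc x)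
    rw [inner_sub_left, sub_eq_zero] at h1
    exact h1
  have e0 : ∀ x : ℝ, (inner ℂ v (π x u0) : ℂ) = inner ℂ v0 (π x u0) := by
    intro x
    have h1 := (Submodule.mem_orthogonal' _ _).1 hv0' _ (hπ.H0_invariant hu0 x)
    rw [inner_sub_left, sub_eq_zero] at h1
    exact h1
  -- norms of the projections
  have hun : ‖uc‖ ^ 2 + ‖u0‖ ^ 2 ≤ normR A f := by
    have h1 := norm_add_sq_eq_norm_sq_add_norm_sq_of_inner_eq_zero uc u0 (hπ.inner_Hc_H0 huc hu0)
    nlinarith [sq_nonneg ‖u2‖]
  have hvn : ‖vc‖ ^ 2 + ‖v0‖ ^ 2 ≤ normR A f := by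
    have h1 := norm_add_sq_eq_norm_sq_add_norm_sq_of_inner_eq_zero vc v0 (hπ.inner_Hc_H0 hvc hv0)
    have h2 : (inner ℂ (v - (vc + v0)) (vc + v0) : ℂ) = 0 := by
      have a1 : (inner ℂ (v - vc) vc : ℂ) = 0 := (Submodule.mem_orthogonal' _ _).1 hvc' _ hvc
      have a2 : (inner ℂ (v - v0) v0 : ℂ) = 0 := (Submodule.mem_orthogonal' _ _).1 hv0' _ hv0
      have a3 : (inner ℂ vc v0 : ℂ) = 0 := hπ.inner_Hc_H0 hvc hv0
      have a4 : (inner ℂ v0 vc : ℂ) = 0 := by rw [← inner_conj_symm, a3, map_zero]
      rw [inner_sub_left] at a1 a2 ⊢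
      rw [inner_add_right, inner_add_right, inner_add_left, inner_add_left, a3, a4]
      linear_combination a1 + a2
    have h3 := norm_add_sq_eq_norm_sq_add_norm_sq_of_inner_eq_zero (v - (vc + v0)) (vc + v0) h2
    rw [sub_add_cancel] at h3
    nlinarith [sq_nonneg ‖v - (vc + v0)‖, mul_self_nonneg ‖v - (vc + v0)‖]
  -- bounds for the two coefficients
  have hbound : ∀ (g : ℝ → ℂ) (a b : H), (∀ x : ℝ, g x = inner ℂ a (π x b)) →
      IsBound A g (‖a‖ * ‖b‖) := by
    intro g a b hg
    refine ⟨by positivity, fun c _ M hM => ?_⟩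
    have h1 := norm_Phi_coeff_le hb a b c M (by
      intro t
      rw [ap_apply]
      exact hM t)
    rw [Phi_apply] at h1
    have h2 : functional g c = ∑ x ∈ c.support, c x * inner ℂ a (π x b) :=
      Finset.sum_congr rfl fun x _ => by rw [hg x]
    rw [h2]
    exact h1
  have hbc : IsBound A (fun x => inner ℂ v (π x uc)) (‖vc‖ * ‖uc‖) := hbound _ vc uc ec
  have hb0 : IsBound A (fun x => inner ℂ v (π x u0)) (‖v0‖ * ‖u0‖) := hbound _ v0 u0 e0
  have hcont : Continuous fun x : ℝ => (inner ℂ v (π x uc) : ℂ) := by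
    have h3 : Continuous fun l : ℝ => π l uc := huc
    exact continuous_const.inner h3
  have hnull : ∀ᵐ x ∂(volume.restrict (band A)), (inner ℂ v (π x u0) : ℂ) = 0 :=
    ae_restrict_of_ae (hu0 v)
  have hdec : ∀ x ∈ band A, f x = inner ℂ v (π x uc) + inner ℂ v (π x u0) := by
    intro x hx
    rw [hrep x hx, hsum, map_add (π x) (uc + u0) u2, map_add (π x) uc u0, inner_add_right,
      inner_add_right, hz x hx, add_zero]
  refine ⟨fun x => inner ℂ v (π x uc), fun x => inner ℂ v (π x u0), hdec,
    ⟨⟨_, hbc⟩, hcont.continuousOn⟩,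
    ⟨⟨_, hb0⟩, aemeasurable_const.congr (Filter.EventuallyEq.symm hnull), hnull⟩, ?_, ?_⟩
  · refine le_antisymm ?_ ?_
    · have h1 := isBound_normR (A := A) (f := fun x => inner ℂ v (π x uc)) ⟨_, hbc⟩
      have h2 := isBound_normR (A := A) (f := fun x => inner ℂ v (π x u0)) ⟨_, hb0⟩
      refine csInf_le (bddBelow_bounds _ _) ⟨add_nonneg h1.1 h2.1, fun c hc M hM => ?_⟩
      have h3 : functional f c = functional (fun x => inner ℂ v (π x uc)) c +
          functional (fun x => inner ℂ v (π x u0)) c := by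
        unfold functional
        rw [← Finset.sum_add_distrib]
        refine Finset.sum_congr rfl fun x hx => ?_
        rw [hdec x (hc x hx)]
        ring
      rw [h3, add_mul]
      exact (norm_add_le _ _).trans (add_le_add (h1.2 c hc M hM) (h2.2 c hc M hM))
    · have h1 : normR A (fun x => inner ℂ v (π x uc)) ≤ ‖vc‖ * ‖uc‖ :=
        csInf_le (bddBelow_bounds _ _) hbc
      have h2 : normR A (fun x => inner ℂ v (π x u0)) ≤ ‖v0‖ * ‖u0‖ :=
        csInf_le (bddBelow_bounds _ _) hb0
      nlinarith [sq_nonneg (‖vc‖ - ‖uc‖), sq_nonneg (‖v0‖ - ‖u0‖)]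
  · intro gc gm hg hgc hgm
    have hae : gc =ᵐ[volume.restrict (band A)] fun x => (inner ℂ v (π x uc) : ℂ) := by
      filter_upwards [hgm, hnull, self_mem_ae_restrict (isOpen_band A).measurableSet]
        with x h1 h2 hx
      have h3 := hg x hx
      rw [hdec x hx, h1, h2, add_zero, add_zero] at h3
      exact h3.symm
    have heq := Measure.eqOn_open_of_ae_eq hae (isOpen_band A) hgc hcont.continuousOn
    intro x hx
    have h1 : gc x = inner ℂ v (π x uc) := heq hx
    refine ⟨h1, ?_⟩
    have h2 := hg x hx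
    rw [hdec x hx, h1] at h2
    exact (add_left_cancel h2).symm

end Pool.Agent.Results.MP_410e25_an.ContinuousPart
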